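import Pool.Agent.Helper30.PL.Goals

/-!
# Pielou's equation: instability beyond the critical value (packet UNST)
-/

set_option autoImplicit false

open Filter Topology Finset

namespace Pool.Agent.Helper90.PL

open Pool.Agent.Helper30.PL

/-! ### Solutions of recurrences -/

/-- The shift on sequences, where the entry number `k` is computed. -/
noncomputable def sh (k : ℕ) (g : ℝ → ℝ → ℝ) (s : ℕ → ℝ) : ℕ → ℝ :=
  fun i => if i < k then s (i + 1) else g (s k) (s 0)

theorem sh_lt (k : ℕ) (g : ℝ → ℝ → ℝ) (t : ℕ → ℝ) (i : ℕ) (hi : i < k) :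
    sh k g t i = t (i + 1) := if_pos hi

theorem sh_top (k : ℕ) (g : ℝ → ℝ → ℝ) (t : ℕ → ℝ) : sh k g t k = g (t k) (t 0) :=
  if_neg (lt_irrefl k)

theorem sh_iter (k : ℕ) (g : ℝ → ℝ → ℝ) (s : ℕ → ℝ) (i : ℕ) (hi : i ≤ k) :
    ∀ n, (sh k g)^[n] s i = (sh k g)^[n + i] s 0 := by
  induction i with
  | zero => intro n; rfl
  | succ i ih =>
    intro n
    have h1 := ih (by omega) (n + 1)
    have h2 : (sh k g)^[n + 1] s i = (sh k g)^[n] s (i + 1) := by
      rw [Function.iterate_succ_apply']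
      exact sh_lt k g _ i (by omega)
    have h3 : n + 1 + i = n + (i + 1) := by omega
    rw [← h2, h1, h3]

theorem exists_rec (k : ℕ) (g : ℝ → ℝ → ℝ) (s : ℕ → ℝ) :
    ∃ u : ℕ → ℝ, (∀ i ≤ k, u i = s i) ∧ ∀ n, u (n + k + 1) = g (u (n + k)) (u n) := by
  refine ⟨fun n => (sh k g)^[n] s 0, fun i hi => ?_, fun n => ?_⟩
  · have h := sh_iter k g s i hi 0
    rw [zero_add] at h
    exact h.symm
  · have h1 := sh_iter k g s k le_rfl (n + 1)
    have h2 : (sh k g)^[n + 1] s k = g ((sh k g)^[n] s k) ((sh k g)^[n] s 0) := by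
      rw [Function.iterate_succ_apply']
      exact sh_top k g _
    have h3 := sh_iter k g s k le_rfl n
    show (sh k g)^[n + k + 1] s 0 = g ((sh k g)^[n + k] s 0) ((sh k g)^[n] s 0)
    have h4 : n + 1 + k = n + k + 1 := by omega
    rw [← h3, ← h2, h1, h4]

/-! ### Variation of constants -/

theorem variation {k : ℕ} {p : ℝ} {F D r : ℕ → ℝ} (F0 : ∀ i < k, F i = 0) (Fk : F k = 1)
    (hF : ∀ n, F (n + k + 1) = F (n + k) - p * F n) (D0 : ∀ i ≤ k, D i = 0)
    (hD : ∀ n, D (n + k + 1) = D (n + k) - p * D n + r n) :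
    ∀ m, D m = ∑ j ∈ range (m - k), F (m - 1 - j) * r j := by
  intro m
  induction m using Nat.strong_induction_on with
  | _ m ih =>
    rcases Nat.lt_or_ge k m with h | h
    · obtain ⟨n, rfl⟩ : ∃ n, m = n + k + 1 := ⟨m - k - 1, by omega⟩
      have e1 : n + k + 1 - k = n + 1 := by omega
      rw [hD, ih (n + k) (by omega), ih n (by omega), e1, sum_range_succ]
      have e2 : n + k + 1 - 1 - n = k := by omega
      rw [e2, Fk, one_mul]
      congr 1
      have e3 : n + k - k = n := by omega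
      rw [e3]
      have e4 : ∑ j ∈ range (n - k), F (n - 1 - j) * r j = ∑ j ∈ range n, F (n - 1 - j) * r j := by
        refine sum_subset (range_subset_range.2 (by omega)) fun j hj hj' => ?_
        rw [mem_range] at hj hj'
        rw [F0 _ (by omega), zero_mul]
      rw [e4, mul_sum, ← sum_sub_distrib]
      refine sum_congr rfl fun j hj => ?_
      rw [mem_range] at hj
      have e5 : n + k + 1 - 1 - j = (n - 1 - j) + k + 1 := by omega
      have e6 : n + k - 1 - j = n - 1 - j + k := by omega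
      rw [e5, hF, e6]
      ring
    · rw [D0 m h, Nat.sub_eq_zero_of_le h, range_zero, sum_empty]

theorem geom_bound {R Q : ℝ} (hRQ : R < Q) (hR : 0 ≤ R) (n : ℕ) :
    ∑ j ∈ range (n + 1), R ^ (n - j) * Q ^ j ≤ Q ^ (n + 1) / (Q - R) := by
  have h0 : 0 < Q - R := sub_pos.2 hRQ
  induction n with
  | zero =>
    simp only [zero_add, range_one, sum_singleton, Nat.sub_self, pow_zero, mul_one, pow_one]
    rw [le_div_iff₀ h0]
    linarith
  | succ n ih =>
    rw [sum_range_succ]
    have h1 : ∑ j ∈ range (n + 1), R ^ (n + 1 - j) * Q ^ j =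
        R * ∑ j ∈ range (n + 1), R ^ (n - j) * Q ^ j := by
      rw [mul_sum]
      refine sum_congr rfl fun j hj => ?_
      rw [mem_range] at hj
      have : n + 1 - j = (n - j) + 1 := by omega
      rw [this, pow_succ]
      ring
    rw [h1, Nat.sub_self, pow_zero, one_mul]
    have h2 := mul_le_mul_of_nonneg_left ih hR
    have h3 : R * (Q ^ (n + 1) / (Q - R)) + Q ^ (n + 1) = Q ^ (n + 1 + 1) / (Q - R) := by
      field_simp
      ring
    linarith

/-! ### The dominant root -/

theorem exists_max_root (k : ℕ) (p : ℝ) (h : ∃ z : ℂ, 1 < ‖z‖ ∧ z ^ (k + 1) - z ^ k + (p : ℂ) = 0) :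
    ∃ l : ℂ, 1 < ‖l‖ ∧ l ^ (k + 1) - l ^ k + (p : ℂ) = 0 ∧
      ∀ z : ℂ, z ^ (k + 1) - z ^ k + (p : ℂ) = 0 → ‖z‖ ≤ ‖l‖ := by
  classical
  obtain ⟨z0, hz0, hz0'⟩ := h
  set P : Polynomial ℂ := Polynomial.X ^ (k + 1) - Polynomial.X ^ k + Polynomial.C (p : ℂ) with hP
  have hP0 : P ≠ 0 := by
    intro h
    have h1 : P.coeff (k + 1) = 1 := by
      rw [hP]
      simp only [Polynomial.coeff_add, Polynomial.coeff_sub, Polynomial.coeff_X_pow,
        Polynomial.coeff_C]
      simp
    rw [h] at h1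
    simp at h1
  have hroot : ∀ z : ℂ, z ∈ P.roots.toFinset ↔ z ^ (k + 1) - z ^ k + (p : ℂ) = 0 := by
    intro z
    rw [Multiset.mem_toFinset, Polynomial.mem_roots hP0, Polynomial.IsRoot.def, hP]
    simp
  obtain ⟨l, hl, hmax⟩ := P.roots.toFinset.exists_max_image (fun z => ‖z‖)
    ⟨z0, (hroot z0).2 hz0'⟩
  refine ⟨l, lt_of_lt_of_le hz0 (hmax z0 ((hroot z0).2 hz0')), (hroot l).1 hl, fun z hz => ?_⟩
  exact hmax z ((hroot z).2 hz)

/-- The linear solution which grows up to the time `N`. -/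
noncomputable def lin (l : ℂ) (s : ℝ) (N n : ℕ) : ℝ :=
  s * (l ^ n * (starRingEnd ℂ l) ^ N).re / ‖l‖ ^ N

theorem lin_rec {k : ℕ} {p : ℝ} {l : ℂ} (hl : l ^ (k + 1) - l ^ k + (p : ℂ) = 0) (s : ℝ) (N n : ℕ) :
    lin l s N (n + k + 1) = lin l s N (n + k) - p * lin l s N n := by
  unfold lin
  have h1 : l ^ (n + k + 1) = l ^ (n + k) - (p : ℂ) * l ^ n := by
    have : l ^ (n + k + 1) - l ^ (n + k) + (p : ℂ) * l ^ n =
        l ^ n * (l ^ (k + 1) - l ^ k + (p : ℂ)) := by ring
    rw [hl, mul_zero] at this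
    linear_combination this
  rw [h1, sub_mul, mul_assoc, Complex.sub_re, Complex.re_ofReal_mul]
  ring

theorem lin_abs {l : ℂ} (hl : 1 < ‖l‖) {s : ℝ} (hs : 0 ≤ s) (N n : ℕ) :
    |lin l s N n| ≤ s * ‖l‖ ^ n := by
  unfold lin
  have h0 : 0 < ‖l‖ ^ N := by positivity
  rw [abs_div, abs_mul, abs_of_nonneg hs, abs_of_pos h0, div_le_iff₀ h0, mul_assoc]
  refine mul_le_mul_of_nonneg_left ?_ hs
  refine (Complex.abs_re_le_norm _).trans ?_
  rw [norm_mul, norm_pow, norm_pow, Complex.norm_conj]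

theorem lin_top {l : ℂ} (hl : 1 < ‖l‖) (s : ℝ) (N : ℕ) : lin l s N N = s * ‖l‖ ^ N := by
  unfold lin
  have h0 : 0 < ‖l‖ ^ N := by positivity
  have h1 : l ^ N * (starRingEnd ℂ l) ^ N = (((‖l‖ ^ N * ‖l‖ ^ N : ℝ)) : ℂ) := by
    rw [← mul_pow, Complex.mul_conj, Complex.normSq_eq_norm_sq]
    push_cast
    ring
  rw [h1, Complex.ofReal_re]
  field_simp

/-! ### The remainder -/

theorem rem_bound {p a b : ℝ} (hp : 0 < p) (hp1 : p < 1) (ha : |a| ≤ 1 / 2) :
    |(b - p * a) / (1 + p * a) - b + p * a| ≤ 2 * |a| * (|b| + |a|) := by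
  have h1 : |p * a| ≤ 1 / 2 := by
    rw [abs_mul, abs_of_pos hp]
    nlinarith [abs_nonneg a]
  have h2 : 1 / 2 ≤ 1 + p * a := by
    have := neg_abs_le (p * a)
    linarith
  have h3 : (b - p * a) / (1 + p * a) - b + p * a = -(p * a * (b - p * a)) / (1 + p * a) := by
    have : (1 + p * a) ≠ 0 := by linarith
    field_simp
    ring
  rw [h3, abs_div, abs_neg, abs_mul, abs_mul, abs_of_pos hp, abs_of_pos (by linarith : (0:ℝ) < 1 + p * a),
    div_le_iff₀ (by linarith)]
  have h4 : |b - p * a| ≤ |b| + |a| := by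
    refine (abs_sub _ _).trans ?_
    rw [abs_mul, abs_of_pos hp]
    nlinarith [abs_nonneg a]
  have h5 : 0 ≤ |a| := abs_nonneg a
  have h6 : 0 ≤ |b| := abs_nonneg b
  have h7 : p * |a| * |b - p * a| ≤ |a| * (|b| + |a|) := by
    have h8 : p * |a| ≤ |a| := by nlinarith
    exact mul_le_mul h8 h4 (abs_nonneg _) h5
  have h9 : |a| * (|b| + |a|) ≤ 2 * |a| * (|b| + |a|) * (1 + p * a) := by
    have h10 : 0 ≤ |a| * (|b| + |a|) := by positivity
    nlinarith
  linarith

/-- **Packet UNST.** -/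
theorem unstable (root : RootStmt) (growth : GrowthStmt) : UnstableStmt := by
  intro α β k hα hβ hcos
  set p : ℝ := (α - 1) / α with hp
  have hα0 : 0 < α := by linarith
  have hp0 : 0 < p := div_pos (by linarith) hα0
  have hp1 : p < 1 := by
    rw [hp, div_lt_one hα0]
    linarith
  set xb : ℝ := (α - 1) / β with hxb
  have hxb0 : 0 < xb := div_pos (by linarith) hβ
  obtain ⟨l, hl1, hl, hlmax⟩ := exists_max_root k p (root k p hcos hp1)
  set ρ : ℝ := ‖l‖ with hρ
  have hρ0 : 0 < ρ := by linarith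
  have hρρ : ρ < ρ ^ 2 := by nlinarith
  set R : ℝ := (ρ + ρ ^ 2) / 2 with hR
  have hρR : ρ < R := by rw [hR]; linarith
  have hRQ : R < ρ ^ 2 := by rw [hR]; linarith
  have hR0 : 0 < R := by linarith
  obtain ⟨F, hF0, hF⟩ := exists_rec k (fun a b => a - p * b) (fun i => if i = k then 1 else 0)
  have F0 : ∀ i < k, F i = 0 := by
    intro i hi
    rw [hF0 i hi.le, if_neg (by omega)]
  have Fk : F k = 1 := by
    rw [hF0 k le_rfl, if_pos rfl]
  obtain ⟨C, hC⟩ := growth k p R (fun z hz => lt_of_le_of_lt (hlmax z hz) hρR) F hF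
  set C1 : ℝ := max C 1 with hC1
  have hC1p : 0 < C1 := lt_of_lt_of_le one_pos (le_max_right _ _)
  have hFb : ∀ n, |F n| ≤ C1 * R ^ n := fun n =>
    (hC n).trans (mul_le_mul_of_nonneg_right (le_max_left _ _) (by positivity))
  set K : ℝ := 16 * C1 * ρ ^ k / (ρ ^ 2 - R) with hK
  have hQR : 0 < ρ ^ 2 - R := sub_pos.2 hRQ
  have hK0 : 0 < K := by positivity
  set η : ℝ := min (1 / 4) (1 / (2 * K)) with hη
  have hη0 : 0 < η := lt_min (by norm_num) (by positivity)
  have hη4 : η ≤ 1 / 4 := min_le_left _ _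
  have hηK : K * η ≤ 1 / 2 := by
    have h1 : η ≤ 1 / (2 * K) := min_le_right _ _
    have h2 := mul_le_mul_of_nonneg_left h1 hK0.le
    have h3 : K * (1 / (2 * K)) = 1 / 2 := by field_simp
    linarith
  refine ⟨xb * (η / 2), by positivity, fun δ hδ => ?_⟩
  -- the choice of `N`
  obtain ⟨N, hN⟩ : ∃ N : ℕ, η * ρ ^ k * (1 / min (1 / 2) (δ / (2 * xb))) < ρ ^ N :=
    pow_unbounded_of_one_lt _ hl1
  set s : ℝ := η / ρ ^ N with hs
  have hs0 : 0 < s := by positivity
  have hmin : 0 < min (1 / 2) (δ / (2 * xb)) := lt_min (by norm_num) (by positivity)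
  have hsk : s * ρ ^ k < min (1 / 2) (δ / (2 * xb)) := by
    rw [hs, div_mul_eq_mul_div, div_lt_iff₀ (by positivity)]
    rw [mul_one_div, div_lt_iff₀ hmin] at hN
    linarith
  have hsk1 : s * ρ ^ k < 1 / 2 := lt_of_lt_of_le hsk (min_le_left _ _)
  have hskd : xb * (s * ρ ^ k) < δ := by
    have h1 : s * ρ ^ k < δ / (2 * xb) := lt_of_lt_of_le hsk (min_le_right _ _)
    rw [lt_div_iff₀ (by positivity)] at h1
    nlinarith
  have hsN : s * ρ ^ N = η := by
    rw [hs]
    field_simp
  set u : ℕ → ℝ := lin l s N with hu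
  have hurec : ∀ n, u (n + k + 1) = u (n + k) - p * u n := fun n => lin_rec hl s N n
  have huabs : ∀ n, |u n| ≤ s * ρ ^ n := fun n => lin_abs hl1 hs0.le N n
  have huN : u N = η := by
    rw [hu, lin_top hl1, hsN]
  have huk : ∀ i ≤ k, |u i| ≤ s * ρ ^ k := fun i hi =>
    (huabs i).trans (mul_le_mul_of_nonneg_left (pow_le_pow_right₀ hl1.le hi) hs0.le)
  obtain ⟨x, hx0, hx⟩ := exists_rec k (fun a b => α * a / (1 + β * b)) (fun i => xb * (1 + u i))
  have hxpos0 : ∀ i ≤ k, 0 < x i := by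
    intro i hi
    rw [hx0 i hi]
    have h1 := huk i hi
    have h2 := neg_abs_le (u i)
    exact mul_pos hxb0 (by linarith)
  have hxpos : ∀ n, 0 < x n := by
    intro n
    induction n using Nat.strong_induction_on with
    | _ n ih =>
      rcases Nat.lt_or_ge k n with h | h
      · obtain ⟨m, rfl⟩ : ∃ m, n = m + k + 1 := ⟨n - k - 1, by omega⟩
        rw [hx]
        have h1 := ih (m + k) (by omega)
        have h2 := ih m (by omega)
        positivity
      · exact hxpos0 n h
  -- the relative deviation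
  set ξ : ℕ → ℝ := fun n => x n / xb - 1 with hξ
  have hξx : ∀ n, x n = xb * (1 + ξ n) := by
    intro n
    rw [hξ]
    field_simp
    ring
  have hξk : ∀ i ≤ k, ξ i = u i := by
    intro i hi
    rw [hξ]
    show x i / xb - 1 = u i
    rw [hx0 i hi]
    field_simp
    ring
  have hden : ∀ n, 1 + β * x n = α * (1 + p * ξ n) := by
    intro n
    rw [hξx n, hxb, hp]
    field_simp
    ring
  have hdenpos : ∀ n, 0 < 1 + p * ξ n := by
    intro n
    have h1 : 0 < α * (1 + p * ξ n) := by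
      rw [← hden n]
      have := hxpos n
      positivity
    exact (mul_pos_iff_of_pos_left hα0).1 h1
  have hξrec : ∀ n, ξ (n + k + 1) = (ξ (n + k) - p * ξ n) / (1 + p * ξ n) := by
    intro n
    have h1 := hdenpos n
    have h2 : x (n + k + 1) = α * x (n + k) / (1 + β * x n) := hx n
    rw [hden n, hξx (n + k)] at h2
    have h3 : ξ (n + k + 1) = x (n + k + 1) / xb - 1 := rfl
    rw [h3, h2]
    field_simp
    ring
  set r : ℕ → ℝ := fun n => ξ (n + k + 1) - ξ (n + k) + p * ξ n with hr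
  have hD := variation (k := k) (p := p) (F := F) (D := fun n => ξ n - u n) (r := r) F0 Fk hF
    (fun i hi => by
      show ξ i - u i = 0
      rw [hξk i hi, sub_self])
    (fun n => by
      show ξ (n + k + 1) - u (n + k + 1) = ξ (n + k) - u (n + k) - p * (ξ n - u n) +
        (ξ (n + k + 1) - ξ (n + k) + p * ξ n)
      rw [hurec n]
      ring)
  have hrb : ∀ n, |ξ n| ≤ 1 / 2 → |r n| ≤ 2 * |ξ n| * (|ξ (n + k)| + |ξ n|) := by
    intro n hn
    have h1 := rem_bound (b := ξ (n + k)) hp0 hp1 hn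
    rw [← hξrec n] at h1
    exact h1
  -- the main estimate
  have key : ∀ m ≤ N, |ξ m - u m| ≤ K * (s * ρ ^ m) ^ 2 := by
    intro m
    induction m using Nat.strong_induction_on with
    | _ m ih =>
      intro hm
      rcases Nat.lt_or_ge k m with h | h
      · obtain ⟨n, rfl⟩ : ∃ n, m = n + k + 1 := ⟨m - k - 1, by omega⟩
        have he : ∀ j ≤ N, s * ρ ^ j ≤ η := by
          intro j hj
          rw [← hsN]
          exact mul_le_mul_of_nonneg_left (pow_le_pow_right₀ hl1.le hj) hs0.le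
        have hξb : ∀ j < n + k + 1, |ξ j| ≤ 2 * (s * ρ ^ j) := by
          intro j hj
          have h1 := ih j hj (by omega)
          have h2 := huabs j
          have h3 := he j (by omega)
          have h4 : |ξ j| ≤ |ξ j - u j| + |u j| := by
            have := abs_add_le (ξ j - u j) (u j)
            rwa [sub_add_cancel] at this
          have h5 : 0 < s * ρ ^ j := by positivity
          have h6 : K * (s * ρ ^ j) ^ 2 ≤ s * ρ ^ j := by
            have h7 : K * (s * ρ ^ j) ≤ K * η := mul_le_mul_of_nonneg_left h3 hK0.le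
            have h8 : K * (s * ρ ^ j) ≤ 1 := by linarith
            nlinarith
          linarith
        have hrj : ∀ j ∈ range (n + 1), |F (n + k + 1 - 1 - j) * r j| ≤
            16 * C1 * ρ ^ k * s ^ 2 * R ^ k * (R ^ (n - j) * (ρ ^ 2) ^ j) := by
          intro j hj
          rw [mem_range] at hj
          have h1 := hξb j (by omega)
          have h2 := hξb (j + k) (by omega)
          have h3 := he j (by omega)
          have h4 : |ξ j| ≤ 1 / 2 := by linarith
          have h5 := hrb j h4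
          have h6 : 0 < s * ρ ^ j := by positivity
          have h7 : s * ρ ^ (j + k) = ρ ^ k * (s * ρ ^ j) := by ring
          have h8 : 1 ≤ ρ ^ k := one_le_pow₀ hl1.le
          rw [h7] at h2
          have h9 : |r j| ≤ 16 * ρ ^ k * (s * ρ ^ j) ^ 2 := by
            have h10 : |ξ (j + k)| + |ξ j| ≤ 4 * ρ ^ k * (s * ρ ^ j) := by
              have : s * ρ ^ j ≤ ρ ^ k * (s * ρ ^ j) := by nlinarith
              linarith
            have h11 : 2 * |ξ j| * (|ξ (j + k)| + |ξ j|) ≤
                2 * (2 * (s * ρ ^ j)) * (4 * ρ ^ k * (s * ρ ^ j)) := by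
              refine mul_le_mul ?_ h10 (by positivity) (by positivity)
              linarith
            have h12 : 2 * (2 * (s * ρ ^ j)) * (4 * ρ ^ k * (s * ρ ^ j)) =
                16 * ρ ^ k * (s * ρ ^ j) ^ 2 := by ring
            linarith
          rw [abs_mul]
          have h13 := hFb (n + k + 1 - 1 - j)
          have h14 : n + k + 1 - 1 - j = k + (n - j) := by omega
          calc |F (n + k + 1 - 1 - j)| * |r j|
              ≤ (C1 * R ^ (n + k + 1 - 1 - j)) * (16 * ρ ^ k * (s * ρ ^ j) ^ 2) :=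
                mul_le_mul h13 h9 (abs_nonneg _) (by positivity)
            _ = 16 * C1 * ρ ^ k * s ^ 2 * R ^ k * (R ^ (n - j) * (ρ ^ 2) ^ j) := by
                rw [h14, pow_add, ← pow_mul, mul_pow, ← pow_mul, mul_comm j 2]
                ring
        have h1 : |ξ (n + k + 1) - u (n + k + 1)| ≤
            16 * C1 * ρ ^ k * s ^ 2 * R ^ k * ((ρ ^ 2) ^ (n + 1) / (ρ ^ 2 - R)) := by
          have h2 := hD (n + k + 1)
          have h3 : n + k + 1 - k = n + 1 := by omega
          rw [h3] at h2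
          have h4 : ξ (n + k + 1) - u (n + k + 1) =
              ∑ j ∈ range (n + 1), F (n + k + 1 - 1 - j) * r j := h2
          rw [h4]
          refine (abs_sum_le_sum_abs _ _).trans ((sum_le_sum hrj).trans ?_)
          rw [← mul_sum]
          exact mul_le_mul_of_nonneg_left (geom_bound hRQ hR0.le n) (by positivity)
        refine h1.trans ?_
        have h5 : R ^ k ≤ (ρ ^ 2) ^ k := pow_le_pow_left₀ hR0.le hRQ.le k
        have h6 : K * (s * ρ ^ (n + k + 1)) ^ 2 =
            16 * C1 * ρ ^ k * s ^ 2 * (ρ ^ 2) ^ k * ((ρ ^ 2) ^ (n + 1) / (ρ ^ 2 - R)) := by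
          rw [hK]
          have : ρ ^ 2 - R ≠ 0 := hQR.ne'
          have h7 : (s * ρ ^ (n + k + 1)) ^ 2 = s ^ 2 * ((ρ ^ 2) ^ k * (ρ ^ 2) ^ (n + 1)) := by
            rw [← pow_add, ← pow_mul, mul_pow, ← pow_mul]
            congr 2
            ring
          rw [h7]
          field_simp
        rw [h6]
        refine mul_le_mul_of_nonneg_right ?_ (by positivity)
        exact mul_le_mul_of_nonneg_left h5 (by positivity)
      · rw [hξk m h, sub_self, abs_zero]
        positivity
  refine ⟨x, hx, hxpos0, fun i hi => ?_, N, ?_⟩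
  · rw [hx0 i hi]
    have h1 : xb * (1 + u i) - xb = xb * u i := by ring
    rw [h1, abs_mul, abs_of_pos hxb0]
    exact lt_of_le_of_lt (mul_le_mul_of_nonneg_left (huk i hi) hxb0.le) hskd
  · have h1 := key N le_rfl
    rw [huN, hsN] at h1
    have h2 : η - K * η ^ 2 ≤ |ξ N| := by
      have h3 : η = -(ξ N - η) + ξ N := by ring
      have h4 : |η| ≤ |-(ξ N - η)| + |ξ N| := by
        conv_lhs => rw [h3]
        exact abs_add_le _ _
      rw [abs_neg, abs_of_pos hη0] at h4
      linarith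
    have h3 : η / 2 ≤ |ξ N| := by
      have h4 : K * η ^ 2 ≤ 1 / 2 * η := by
        have h5 : K * η ^ 2 = K * η * η := by ring
        rw [h5]
        exact mul_le_mul_of_nonneg_right hηK hη0.le
      linarith
    rw [hξx N]
    have h4 : xb * (1 + ξ N) - xb = xb * ξ N := by ring
    rw [h4, abs_mul, abs_of_pos hxb0]
    exact mul_le_mul_of_nonneg_left h3 hxb0.le

end Pool.Agent.Helper90.PL
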